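import Pool.Agent.Helper18_DEN3.Ops

open scoped BigOperators

namespace Pool.Agent.DEN.H183

open Pool.Agent.DEN

section
variable {r : ℕ} {C : Matrix (Fin r) (Fin r) ℤ} {K : Type} [Field K]

theorem cd_pow_smul {Q : Polynomial K} (n : ℕ) {v : LieV C (FF K)}
    (hv : Cd (ringA K 1) v) : Cd (ringA K 1) (polyL K Q ^ n • v) := by
  have hQ : polyL K Q ∈ ringA K 1 := Subring.subset_closure (Or.inl ⟨Q, rfl⟩)
  exact ⟨fun i => (ringA K 1).mul_mem (pow_mem hQ n) (hv.1 i),
    fun γ => (ringA K 1).mul_mem (pow_mem hQ n) (hv.2 γ)⟩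

theorem bnd_mono (ρ : ℕ) {g : grp C K} (hg : bnd 0 g) :
    bnd (ρ : ℤ) g := by
  intro v hv
  have h1 := hg v hv
  have hF := (H22.hF1 K).2.2.2.2.1
  exact ⟨fun i => hF 0 ρ _ (by omega) (h1.1 i), fun γ => hF 0 ρ _ (by omega) (h1.2 γ)⟩

theorem htr (hS : Scs2Stmt) : HtrStmt := by
  classical
  intro r C hC K _ _ M N Q hM hN hMN hQ hQN ψ hψ1 hψ2 hψ3 κ ρ A hκ hA κ' ρ' A' hκ' hA' hdeg
    γ hγ l g hg hl f hf hf1 hf0
  have hQM : IsCoprime Q M := IsCoprime.of_isCoprime_of_dvd_right hQN hMN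
  have hN1 := H22.hNrm r C hC K 1 N one_ne_zero hN isCoprime_one_left
  have hNQ := H22.hNrm r C hC K Q N hQ hN hQN
  have hMQ := H22.hNrm r C hC K Q M hQ hM hQM
  obtain ⟨t1, t2, -, -⟩ := H22.hTrf r C hC K Q N hQ hN hQN κ' ρ' hκ'
  have hst : Finite (MulAction.stabilizer (cong C K 1 M) (γ • pt g)) :=
    (H22.hFin r C hC K).2.1 M _
  have hfN : ∀ l ∈ cong C K 1 N, ∀ y, f (l • y) = f y := by
    intro l hl y
    rw [hf l (cong_le_of_dvd hMN hl) y, hψ3 l hl, one_mul]
  have hA0 : 0 ≤ A := (norm_nonneg _).trans (hA 1)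
  have hA0' : 0 ≤ A' := (norm_nonneg _).trans (hA' 1)
  set x : XX C K := γ • pt g with hx
  set Y := (cong C K Q N) ⧸ (cong C K 1 N).subgroupOf (cong C K Q N) with hY
  set e : ℕ := eb C l ((M.natDegree : ℤ) - 1 - (ρ + ρ' * Q.natDegree : ℕ)) with he
  have fx := tinf_fin hκ x
  -- the term
  let t : XX C K × Y → ℂ := fun p => κ (x.out⁻¹ * p.1.out) *
    (κ' ⟨p.2.out.1, p.2.out.2.1⟩ * f ((p.2.out.1)⁻¹ • p.1))
  let T : Finset (XX C K × Y) := (fx.toFinset ×ˢ t2.toFinset).filter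
    (fun p => f ((p.2.out.1)⁻¹ • p.1) ≠ 0)
  have hsum : Tinf κ (Tfin Q N κ' f) x = ∑ p ∈ T, t p := by
    rw [Finset.sum_filter_of_ne (s := fx.toFinset ×ˢ t2.toFinset) (f := t)]
    · rw [Finset.sum_product, Tinf, finsum_eq_sum_of_support_subset (s := fx.toFinset)]
      · refine Finset.sum_congr rfl fun y _ => ?_
        rw [Tfin, finsum_eq_sum_of_support_subset (s := t2.toFinset), Finset.mul_sum]
        intro δ hδ
        rw [Set.Finite.coe_toFinset]
        exact left_ne_zero_of_mul hδ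
      · intro y hy
        rw [Set.Finite.coe_toFinset]
        exact left_ne_zero_of_mul hy
    · intro p _ hp
      exact right_ne_zero_of_mul (right_ne_zero_of_mul hp)
  let p0 : XX C K × Y := (x, QuotientGroup.mk 1)
  have hout1 : ((QuotientGroup.mk 1 : Y).out : cong C K Q N).1 ∈ cong C K 1 N := by
    have := H22.out_mul_inv_mem ((cong C K 1 N).subgroupOf (cong C K Q N)) 1
    rw [mul_one, Subgroup.mem_subgroupOf] at this
    have h2 := inv_mem this
    push_cast at h2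
    rwa [inv_inv] at h2
  have ht0 : t p0 = κ 1 * κ' 1 := by
    have h1 : κ' ⟨((QuotientGroup.mk 1 : Y).out : cong C K Q N).1,
        ((QuotientGroup.mk 1 : Y).out : cong C K Q N).2.1⟩ = κ' 1 := by
      refine H22.kap_inv hκ'.1 ?_
      rw [Subgroup.mem_subgroupOf]
      push_cast
      rw [mul_one]
      exact inv_mem hout1.1
    show κ (x.out⁻¹ * x.out) * (κ' ⟨((QuotientGroup.mk 1 : Y).out : cong C K Q N).1,
        ((QuotientGroup.mk 1 : Y).out : cong C K Q N).2.1⟩ *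
        f (((QuotientGroup.mk 1 : Y).out.1)⁻¹ • x)) = _
    rw [h1, hfN _ (inv_mem hout1), hf1, inv_mul_cancel, mul_one]
  have hsum2 : Tinf κ (Tfin Q N κ' f) x - κ 1 * κ' 1 = ∑ p ∈ T.erase p0, t p := by
    rw [hsum, ← ht0]
    by_cases hp : p0 ∈ T
    · rw [← Finset.add_sum_erase T t hp]
      ring
    · rw [Finset.erase_eq_of_notMem hp]
      have : t p0 = 0 := by
        by_contra h
        apply hp
        rw [Finset.mem_filter, Finset.mem_product, Set.Finite.mem_toFinset,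
          Set.Finite.mem_toFinset]
        exact ⟨⟨left_ne_zero_of_mul h, left_ne_zero_of_mul (right_ne_zero_of_mul h)⟩,
          right_ne_zero_of_mul (right_ne_zero_of_mul h)⟩
      rw [this, sub_zero]
  have hh : ∀ p ∈ insert p0 T, ∃ h ∈ cong C K 1 M, (p.2.out.1)⁻¹ • p.1 = h • x := by
    intro p hp
    rcases Finset.mem_insert.mp hp with rfl | hp
    · exact ⟨((QuotientGroup.mk 1 : Y).out.1)⁻¹, cong_le_of_dvd hMN (inv_mem hout1), rfl⟩
    · have h1 := (Finset.mem_filter.mp hp).2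
      by_contra h2
      apply h1
      apply hf0
      rintro ⟨h, hh1, hh2⟩
      exact h2 ⟨h, hh1, hh2⟩
  choose! H hH1 hH2 using hh
  have hnorm : ∀ p ∈ T.erase p0, ‖t p‖ ≤ A * A' := by
    intro p hp
    have hp' : p ∈ insert p0 T := Finset.mem_insert_of_mem (Finset.mem_of_mem_erase hp)
    have h1 : f ((p.2.out.1)⁻¹ • p.1) = ψ (H p) := by
      rw [hH2 p hp', hf _ (hH1 p hp'), hf1, mul_one]
    show ‖κ (x.out⁻¹ * p.1.out) *
      (κ' ⟨p.2.out.1, p.2.out.2.1⟩ * f ((p.2.out.1)⁻¹ • p.1))‖ ≤ _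
    rw [h1, norm_mul, norm_mul, hψ2 _ (hH1 p hp'), mul_one]
    exact mul_le_mul (hA _) (hA' _) (norm_nonneg _) hA0
  have hD : ‖Tinf κ (Tfin Q N κ' f) x - κ 1 * κ' 1‖ ≤ A * A' * (T.erase p0).card := by
    rw [hsum2]
    refine (norm_sum_le _ _).trans ((Finset.sum_le_sum hnorm).trans_eq ?_)
    rw [Finset.sum_const, nsmul_eq_mul, mul_comm]
  -- the count
  have hfs : Fintype (MulAction.stabilizer (cong C K 1 M) x) := Fintype.ofFinite _
  let a : (XX C K × Y) × MulAction.stabilizer (cong C K 1 M) x → grp C K :=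
    fun q => q.1.2.out.1 * (H q.1 * q.2.1.1)
  have hax : ∀ q, q.1 ∈ insert p0 T → a q • x = q.1.1 := by
    intro q hq
    show (q.1.2.out.1 * (H q.1 * q.2.1.1)) • x = q.1.1
    have h1 : q.2.1.1 • x = x := q.2.2
    rw [mul_smul, mul_smul, h1, ← hH2 _ hq, smul_smul, mul_inv_cancel, one_smul]
  let φ : (XX C K × Y) × MulAction.stabilizer (cong C K 1 M) x → grp C K :=
    fun q => γ⁻¹ * a q * γ
  let S0 : Finset ((XX C K × Y) × MulAction.stabilizer (cong C K 1 M) x) :=
    (insert p0 T) ×ˢ Finset.univ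
  have hinj : Set.InjOn φ (S0 : Set ((XX C K × Y) × MulAction.stabilizer (cong C K 1 M) x)) := by
    intro q hq q' hq' h
    have hq1 : q.1 ∈ insert p0 T := (Finset.mem_product.mp (Finset.mem_coe.mp hq)).1
    have hq1' : q'.1 ∈ insert p0 T := (Finset.mem_product.mp (Finset.mem_coe.mp hq')).1
    have h1 : a q = a q' := mul_left_cancel (mul_right_cancel h)
    have h2 : q.1.1 = q'.1.1 := by rw [← hax q hq1, ← hax q' hq1', h1]
    have h3 : q.1.2.out.1 * (H q.1 * q.2.1.1) = q'.1.2.out.1 * (H q'.1 * q'.2.1.1) := h1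
    have h4 : q.1.2 = q'.1.2 := by
      rw [← QuotientGroup.out_eq' q.1.2, ← QuotientGroup.out_eq' q'.1.2]
      rw [QuotientGroup.eq, Subgroup.mem_subgroupOf]
      refine hNQ.2.2.2.1 _ (q.1.2.out⁻¹ * q'.1.2.out).2 ?_
      have h5 : ((q.1.2.out⁻¹ * q'.1.2.out : cong C K Q N) : grp C K) =
          (H q.1 * q.2.1.1) * (H q'.1 * q'.2.1.1)⁻¹ := by
        push_cast
        rw [eq_mul_inv_iff_mul_eq, mul_assoc, ← h3]
        group
      rw [h5]
      exact (mul_mem (mul_mem (hH1 _ hq1) q.2.1.2)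
        (inv_mem (mul_mem (hH1 _ hq1') q'.2.1.2))).1
    have h6 : q.1 = q'.1 := Prod.ext h2 h4
    rw [h6] at h3
    exact Prod.ext h6 (Subtype.ext (Subtype.ext (mul_left_cancel (mul_left_cancel h3))))
  have hT : ∀ p ∈ insert p0 T, p = p0 ∨
      (κ (x.out⁻¹ * p.1.out) ≠ 0 ∧ κ' ⟨p.2.out.1, p.2.out.2.1⟩ ≠ 0) := by
    intro p hp
    rcases Finset.mem_insert.mp hp with h | hp
    · exact Or.inl h
    · have h1 := Finset.mem_product.mp (Finset.mem_filter.mp hp).1
      rw [Set.Finite.mem_toFinset, Set.Finite.mem_toFinset] at h1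
      exact Or.inr h1
  have hxg : x = (QuotientGroup.mk (γ * g) : XX C K) := rfl
  have hcard : (S0.image φ).card ≤ Nat.card K ^ e := by
    refine hS r C hC K Q M hQ hM hQM l g hg hl ρ ρ' hdeg (S0.image φ) ?_ ?_ ?_
    · intro s hs
      obtain ⟨q, hq, rfl⟩ := Finset.mem_image.mp hs
      have hq1 : q.1 ∈ insert p0 T := (Finset.mem_product.mp hq).1
      have h1 : a q ∈ cong C K Q M :=
        mul_mem (cong_le_of_dvd hMN q.1.2.out.2) (hMQ.2.2.1 (mul_mem (hH1 _ hq1) q.2.1.2))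
      have := hMQ.1 γ⁻¹ (hMQ.2.1 (inv_mem hγ)) _ h1
      rwa [inv_inv] at this
    · intro s hs
      obtain ⟨q, hq, rfl⟩ := Finset.mem_image.mp hs
      have hq1 : q.1 ∈ insert p0 T := (Finset.mem_product.mp hq).1
      have h1 : (QuotientGroup.mk (a q * (γ * g)) : XX C K) = q.1.1 := hax q hq1
      have h4 : g⁻¹ * (γ⁻¹ * a q * γ) * g = (γ * g)⁻¹ * (a q * (γ * g)) := by group
      show bnd (ρ : ℤ) (g⁻¹ * (γ⁻¹ * a q * γ) * g)
      rw [h4]
      rcases hT _ hq1 with h5 | h5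
      · have h6 : (QuotientGroup.mk (γ * g) : XX C K) = QuotientGroup.mk (a q * (γ * g)) := by
          rw [h1, h5]
          rfl
        have h7 := QuotientGroup.eq.mp h6
        exact bnd_mono ρ (((H22.hBdg r C hC K).2.2 _).mp h7).1
      · have h8 : κ ((γ * g)⁻¹ * (a q * (γ * g))) = κ (x.out⁻¹ * q.1.1.out) := by
          refine H22.kap_inv' hκ.1 ?_ ?_
          · exact QuotientGroup.eq.mp (hxg.symm.trans (QuotientGroup.out_eq' x).symm)
          · exact QuotientGroup.eq.mp (h1.trans (QuotientGroup.out_eq' q.1.1).symm)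
        have h9 : κ ((γ * g)⁻¹ * (a q * (γ * g))) ≠ 0 := by
          rw [h8]
          exact h5.1
        exact fun v hv => (hκ.2.2 _ h9 v hv).1
    · intro s hs v hv
      obtain ⟨q, hq, rfl⟩ := Finset.mem_image.mp hs
      have hq1 : q.1 ∈ insert p0 T := (Finset.mem_product.mp hq).1
      have h1 : Cd (ringA K 1 : Set (FF K)) (γ.1 v) := hN1.2.2.2.2.2 _ hγ v hv
      have h2 := hN1.2.2.2.2.2 _ (mul_mem (hH1 _ hq1) q.2.1.2).1 _ h1
      have h3 : Cd (ringA K 1 : Set (FF K)) (polyL K Q ^ ρ' •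
          (q.1.2.out.1.1 ((H q.1 * q.2.1.1).1 (γ.1 v)))) := by
        rcases hT _ hq1 with h5 | h5
        · refine cd_pow_smul ρ' ?_
          have h6 : q.1.2.out.1 ∈ cong C K 1 N := by
            rw [h5]
            exact hout1
          exact hN1.2.2.2.2.2 _ h6.1 _ h2
        · exact (hκ'.2.2 _ h5.2 _ h2).1
      have h5 := hN1.2.2.2.2.2 _ (inv_mem hγ) _ h3
      have h6 : polyL K Q ^ ρ' • (φ q).1 v = (γ⁻¹ : grp C K).1 (polyL K Q ^ ρ' •
          (q.1.2.out.1.1 ((H q.1 * q.2.1.1).1 (γ.1 v)))) := by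
        rw [map_smul]
        rfl
      rw [h6]
      exact h5
  rw [Finset.card_image_of_injOn hinj, Finset.card_product, Finset.card_univ,
    ← Nat.card_eq_fintype_card] at hcard
  have hins : (insert p0 T).card = (T.erase p0).card + 1 := by
    by_cases hp : p0 ∈ T
    · rw [Finset.insert_eq_of_mem hp, Finset.card_erase_add_one hp]
    · rw [Finset.card_insert_of_notMem hp, Finset.erase_eq_of_notMem hp]
  have hpos : 0 < Nat.card (MulAction.stabilizer (cong C K 1 M) x) := Nat.card_pos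
  rw [hins, add_mul, one_mul] at hcard
  split_ifs with h0
  · rw [h0, pow_zero] at hcard
    have h1 : (T.erase p0).card = 0 := by
      by_contra h
      have h2 := Nat.mul_le_mul (Nat.pos_of_ne_zero h) hpos
      omega
    rw [h1] at hD
    have h2 : ‖Tinf κ (Tfin Q N κ' f) x - κ 1 * κ' 1‖ = 0 :=
      le_antisymm (by simpa using hD) (norm_nonneg _)
    rw [h2, zero_mul]
  · have h1 : ((T.erase p0).card : ℝ) * Nat.card (MulAction.stabilizer (cong C K 1 M) x) ≤
        (Nat.card K : ℝ) ^ e := by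
      have : (T.erase p0).card * Nat.card (MulAction.stabilizer (cong C K 1 M) x) ≤
        Nat.card K ^ e := by omega
      exact_mod_cast this
    calc ‖Tinf κ (Tfin Q N κ' f) x - κ 1 * κ' 1‖ *
          Nat.card (MulAction.stabilizer (cong C K 1 M) x)
        ≤ A * A' * (T.erase p0).card * Nat.card (MulAction.stabilizer (cong C K 1 M) x) :=
          mul_le_mul_of_nonneg_right hD (by positivity)
      _ = A * A' * ((T.erase p0).card * Nat.card (MulAction.stabilizer (cong C K 1 M) x)) := by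
          ring
      _ ≤ _ := mul_le_mul_of_nonneg_left h1 (mul_nonneg hA0 hA0')

end

end Pool.Agent.DEN.H183
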