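import Pool.Agent.Helper22_DEN3.Stmt

open scoped BigOperators

namespace Pool.Agent.DEN.H183

open Pool.Agent.DEN

section
variable {r : ℕ} {C : Matrix (Fin r) (Fin r) ℤ} {K : Type} [Field K]

theorem polyL_mul (p q : Polynomial K) : polyL K (p * q) = polyL K p * polyL K q := by
  simp [polyL, Polynomial.eval₂_mul]

theorem trivMod_of_dvd {P M N : Polynomial K} (h : M ∣ N) {g : grp C K}
    (hg : TrivMod C K P N g) : TrivMod C K P M g := by
  obtain ⟨D, rfl⟩ := h
  have hD : polyL K D ∈ ringA K P := Subring.subset_closure (Or.inl ⟨D, rfl⟩)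
  intro v hv
  have h1 := hg v hv
  constructor
  · intro i
    obtain ⟨b, hb, hb'⟩ := h1.1 i
    exact ⟨polyL K D * b, (ringA K P).mul_mem hD hb, by rw [hb', polyL_mul, mul_assoc]⟩
  · intro γ
    obtain ⟨b, hb, hb'⟩ := h1.2 γ
    exact ⟨polyL K D * b, (ringA K P).mul_mem hD hb, by rw [hb', polyL_mul, mul_assoc]⟩

theorem cong_le_of_dvd {P M N : Polynomial K} (h : M ∣ N) : cong C K P N ≤ cong C K P M :=
  fun _ hg => ⟨hg.1, trivMod_of_dvd h hg.2.1, trivMod_of_dvd h hg.2.2⟩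

theorem smul_out_mem (g : grp C K) (z : XX C K) : (g * z.out)⁻¹ * (g • z).out ∈ maxK C K := by
  have h1 : (QuotientGroup.mk (g * z.out) : XX C K) = g • z := by
    conv_rhs => rw [← QuotientGroup.out_eq' z]
    rfl
  have h2 : (QuotientGroup.mk (g • z).out : XX C K) = g • z := QuotientGroup.out_eq' _
  exact QuotientGroup.eq.mp (h1.trans h2.symm)

theorem kap_smul {κ : grp C K → ℂ}
    (hκ : ∀ k ∈ maxK C K, ∀ g, κ (k * g) = κ g ∧ κ (g * k) = κ g) (g : grp C K) (x y : XX C K) :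
    κ ((g • x).out⁻¹ * (g • y).out) = κ (x.out⁻¹ * y.out) := by
  rw [← H22.kap_inv' hκ (smul_out_mem g x) (smul_out_mem g y)]
  congr 1
  group

theorem tinf_fin {κ : grp C K → ℂ} {R : ℕ} (hκ : HeckeInf κ R) (x : XX C K) :
    {y : XX C K | κ (x.out⁻¹ * y.out) ≠ 0}.Finite := by
  have h1 := hκ.2.1.preimage (f := fun y : XX C K => x.out⁻¹ • y)
    ((MulAction.injective (x.out⁻¹ : grp C K)).injOn)
  refine h1.subset fun y hy => ?_
  show κ (x.out⁻¹ • y).out ≠ 0
  have h2 := smul_out_mem x.out⁻¹ y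
  rw [← H22.kap_inv hκ.1 h2]
  exact hy

theorem tinf_sum {κ : grp C K → ℂ} {R : ℕ} (hκ : HeckeInf κ R) (f : XX C K → ℂ) (x : XX C K) :
    (Function.support fun y : XX C K => κ (x.out⁻¹ * y.out) * f y).Finite :=
  (tinf_fin hκ x).subset fun _ hy => left_ne_zero_of_mul hy

theorem tfin_sum {P N : Polynomial K} {κ : arith C K P → ℂ}
    (h : {y : (cong C K P N) ⧸ (cong C K 1 N).subgroupOf (cong C K P N) |
      κ ⟨y.out.1, y.out.2.1⟩ ≠ 0}.Finite) (f : XX C K → ℂ) (x : XX C K) :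
    (Function.support fun δ : (cong C K P N) ⧸ (cong C K 1 N).subgroupOf (cong C K P N) =>
      κ ⟨δ.out.1, δ.out.2.1⟩ * f ((δ.out.1)⁻¹ • x)).Finite :=
  h.subset fun _ hy => left_ne_zero_of_mul hy

theorem ops : OpsStmt := by
  classical
  intro r C hC K _ M N hM hN hMN ψ hψ1 hψ2
  constructor
  · intro κ R hκ
    refine ⟨?_, ?_, ?_⟩
    · intro f g
      funext x
      show ∑ᶠ y : XX C K, κ (x.out⁻¹ * y.out) * (f y + g y) = _
      simp only [mul_add]
      rw [finsum_add_distrib (tinf_sum hκ f x) (tinf_sum hκ g x)]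
      rfl
    · intro c f
      funext x
      show ∑ᶠ y : XX C K, κ (x.out⁻¹ * y.out) * (c * f y) = c * _
      rw [Tinf, mul_finsum]
      exact finsum_congr fun y => by ring
    · intro f hf γ hγ x
      rw [Tinf, Tinf, mul_finsum]
      symm
      refine finsum_eq_of_bijective (fun y => γ • y) (MulAction.bijective γ) fun y => ?_
      rw [kap_smul hκ.1, hf γ hγ y]
      ring
  · intro Q hQ hQN κ R hκ
    obtain ⟨t1, t2, -, -⟩ := H22.hTrf r C hC K Q N hQ hN hQN κ R hκ
    refine ⟨?_, ?_, ?_⟩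
    · intro f g
      funext x
      show ∑ᶠ δ : (cong C K Q N) ⧸ (cong C K 1 N).subgroupOf (cong C K Q N),
        κ ⟨δ.out.1, δ.out.2.1⟩ * (f ((δ.out.1)⁻¹ • x) + g ((δ.out.1)⁻¹ • x)) = _
      simp only [mul_add]
      rw [finsum_add_distrib (tfin_sum t2 f x) (tfin_sum t2 g x)]
      rfl
    · intro c f
      funext x
      show ∑ᶠ δ : (cong C K Q N) ⧸ (cong C K 1 N).subgroupOf (cong C K Q N),
        κ ⟨δ.out.1, δ.out.2.1⟩ * (c * f ((δ.out.1)⁻¹ • x)) = c * _
      rw [Tfin, mul_finsum]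
      exact finsum_congr fun y => by ring
    · intro f hf γ hγ x
      have hN1 := H22.hNrm r C hC K 1 N one_ne_zero hN isCoprime_one_left
      have hNQ := H22.hNrm r C hC K Q N hQ hN hQN
      have hfN : ∀ l ∈ cong C K 1 N, ∀ y, f (l • y) = f y := by
        intro l hl y
        rw [hf l (cong_le_of_dvd hMN hl) y, hψ2 l hl, one_mul]
      -- the conjugation
      have hcj : ∀ c ∈ arith C K 1, ∀ δ : cong C K Q N, c⁻¹ * δ.1 * c ∈ cong C K Q N := by
        intro c hc δ
        have := hNQ.1 c⁻¹ (inv_mem (hNQ.2.1 hc)) δ.1 δ.2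
        rwa [inv_inv] at this
      let cj : ∀ c ∈ arith C K 1, cong C K Q N → cong C K Q N :=
        fun c hc δ => ⟨c⁻¹ * δ.1 * c, hcj c hc δ⟩
      have hcjL : ∀ c (hc : c ∈ arith C K 1) (a b : cong C K Q N),
          a⁻¹ * b ∈ (cong C K 1 N).subgroupOf (cong C K Q N) →
          (cj c hc a)⁻¹ * cj c hc b ∈ (cong C K 1 N).subgroupOf (cong C K Q N) := by
        intro c hc a b hab
        rw [Subgroup.mem_subgroupOf] at hab ⊢
        have h1 := hN1.1 c⁻¹ (inv_mem hc) _ hab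
        rw [inv_inv] at h1
        convert h1 using 1
        simp only [cj]
        push_cast
        group
      let φ : ∀ c ∈ arith C K 1, (cong C K Q N) ⧸ (cong C K 1 N).subgroupOf (cong C K Q N) →
          (cong C K Q N) ⧸ (cong C K 1 N).subgroupOf (cong C K Q N) :=
        fun c hc y => QuotientGroup.mk (cj c hc y.out)
      have hφ : ∀ c (hc : c ∈ arith C K 1) y, φ c⁻¹ (inv_mem hc) (φ c hc y) = y := by
        intro c hc y
        conv_rhs => rw [← QuotientGroup.out_eq' y]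
        refine QuotientGroup.eq.mpr ?_
        have h1 := hcjL c⁻¹ (inv_mem hc) _ _ (H22.out_mul_inv_mem _ (cj c hc y.out))
        have h2 : cj c⁻¹ (inv_mem hc) (cj c hc y.out) = y.out := by
          apply Subtype.ext
          simp only [cj]
          group
        rw [h2] at h1
        exact h1
      have hbij : ∀ c (hc : c ∈ arith C K 1), Function.Bijective (φ c hc) := by
        intro c hc
        refine Function.bijective_iff_has_inverse.mpr ⟨φ c⁻¹ (inv_mem hc), hφ c hc, ?_⟩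
        intro y
        have := hφ c⁻¹ (inv_mem hc) y
        have h2 : ∀ (d : grp C K) (hd : d ∈ arith C K 1) (_ : d = c),
            φ d hd (φ c⁻¹ (inv_mem hc) y) = φ c hc (φ c⁻¹ (inv_mem hc) y) := by
          rintro d hd rfl
          rfl
        rw [← h2 _ (inv_mem (inv_mem hc)) (inv_inv c)]
        exact this
      have hγ1 : γ ∈ arith C K 1 := hγ.1
      -- the invariance of the summand
      have hinv : ∀ a b : cong C K Q N, a⁻¹ * b ∈ (cong C K 1 N).subgroupOf (cong C K Q N) →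
          κ ⟨a.1, a.2.1⟩ * f ((a.1)⁻¹ • x) = κ ⟨b.1, b.2.1⟩ * f ((b.1)⁻¹ • x) := by
        intro a b hab
        have h1 : κ ⟨(a * (a⁻¹ * b)).1, (a * (a⁻¹ * b)).2.1⟩ = κ ⟨a.1, a.2.1⟩ := (t1 _ hab a).2
        have h2 : ∀ c : cong C K Q N, c = b → κ ⟨c.1, c.2.1⟩ = κ ⟨b.1, b.2.1⟩ := by
          rintro c rfl
          rfl
        rw [h2 _ (by group)] at h1
        rw [h1]
        congr 1
        rw [Subgroup.mem_subgroupOf] at hab
        have h3 := hfN _ hab ((b.1)⁻¹ • x)
        rw [← h3, smul_smul]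
        congr 2
        push_cast
        group
      have hκc : ∀ δ : cong C K Q N, κ ⟨(cj γ hγ1 δ).1, (cj γ hγ1 δ).2.1⟩ = κ ⟨δ.1, δ.2.1⟩ := by
        intro δ
        have hg : (⟨γ, hNQ.2.1 hγ1⟩ : arith C K Q) ∈ (arith C K 1).subgroupOf (arith C K Q) := by
          rw [Subgroup.mem_subgroupOf]
          exact hγ1
        have h1 := (hκ.1 _ (inv_mem hg) ⟨δ.1, δ.2.1⟩).1
        have h2 := (hκ.1 _ hg ((⟨γ, hNQ.2.1 hγ1⟩ : arith C K Q)⁻¹ * ⟨δ.1, δ.2.1⟩)).2
        rw [← h1, ← h2]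
        rfl
      rw [Tfin, Tfin, mul_finsum]
      refine finsum_eq_of_bijective (φ γ hγ1) (hbij γ hγ1) fun y => ?_
      rw [hinv _ _ (H22.out_mul_inv_mem _ (cj γ hγ1 y.out)), hκc]
      have h1 : (y.out.1)⁻¹ • γ • x = γ • ((cj γ hγ1 y.out).1)⁻¹ • x := by
        rw [smul_smul, smul_smul]
        congr 1
        simp only [cj]
        group
      rw [h1, hf γ hγ]
      ring

end

end Pool.Agent.DEN.H183
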